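import Pool.Agent.SzU.Cov

/-!
# Small points on almost all cyclic covers y^m = f(x) of the line over the rational numbers

Let `m, n` be coprime, `n ≥ 3`, with `g = (m-1)(n-1)/2 ≥ 2`. For
`f = x^n + a_{n-2} x^{n-2} + ... + a_0` in `Z[x]` with `|a_i| ≤ T^(n-i)` and nonzero discriminant,
`X : y^m = f(x)` is a curve of genus `g` with one point at infinity, which is rational. We show
that for every `κ > 1/n`, with at most `A T^(-δ) #box` exceptions, the stable Arakelov height of
the point at infinity is at most `(κ/m) log N + 3/2`, where `N` is the product of the primes `p`
not dividing `m` such that `n (n-1)` does not divide the exponent of `p` in the discriminant of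
`f`. Such a prime is a place of bad reduction of `X`: if `X` has good reduction at a prime `p` not
dividing `m`, the quotient of the smooth model by the group of the `m`-th roots of unity (over the
maximal unramified extension) is a smooth model of the line in which the branch points have
distinct reductions, so that `f` has the roots `a + c u_i` with units `u_i - u_j`, and the
discriminant is a unit times `c^(n(n-1))`.

The definitions (with the explanation why `height` is the stable Arakelov height of the point at
infinity) are in `Pool.Agent.SzSP.Defs`.
-/

open Polynomial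

namespace Pool.Agent.Results.MP_fe3691_nt.AlmostAllCovers

open scoped Classical in
theorem result (m n : ℕ) (hmn : m.Coprime n) (hn : 3 ≤ n) (hg : 2 ≤ SzSP.genus m n) (κ : ℝ)
    (hκ : 1 / (n : ℝ) < κ) :
    ∃ A δ : ℝ, 0 < δ ∧ ∀ T : ℕ, 1 ≤ T →
      (((SzSP.box n T).filter (fun a => ¬ SzSP.SmallPoint m (SzSP.poly n a)
        (κ / m * Real.log (SzSP.badPart m (SzSP.poly n a)) + 3 / 2))).card : ℝ)
        ≤ A * (T : ℝ) ^ (-δ) * (SzSP.box n T).card :=
  SzU.cov m n hmn hn hg κ hκ

end Pool.Agent.Results.MP_fe3691_nt.AlmostAllCovers
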