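import Pool.Agent.SzBF.Main

/-!
# Small points on almost all curves y^m = F(x,1), F a binary form of degree divisible by m; in
particular on 100 per cent of all hyperelliptic curves of a given genus over the rational numbers

Let `m` divide `N` and `g = (m-1)(N-2)/2 ≥ 2`. For a binary form `F = sum_i a_i x^i z^(N-i)` with
integral coefficients, `N` different roots and `a_N ≠ 0`, `X : y^m = F(x,1)` is a curve of genus
`g` with the branch points `(α,0)`, `F(α,1) = 0`. We show that for every `κ > 6(N-2)/(mN)`, with at
most `A H^(-δ) #box` exceptions among the forms with `|a_i| ≤ H`, one of the branch points has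
stable Arakelov height at most `κ log N(F) + κ log (2m) + 25 log (mN)`, where `N(F)` is the product
of the primes `p` not dividing `2m` which divide the discriminant of `F` to an odd power. Such a
prime is a place of bad reduction of `X`: the differences of the branch points are points of order
`m` of the Jacobian and the Galois action on them determines the action on the branch points, so
the square root of the discriminant lies in the field of the `m`-torsion of the Jacobian, which is
unramified at the primes of good reduction prime to `m`.

For `m = 2`, `N = 2g + 2` the curves are all hyperelliptic curves of genus `g` over the rational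
numbers (`κ > 6g/(2g+2)`, for genus two `κ > 2`).

The definitions (with the explanation why `degHeight` is `deg g` times the stable Arakelov height
of the branch points `(α,0)`, `g(α) = 0`) are in `Pool.Agent.SzBF.Defs`.
-/

open Polynomial

namespace Pool.Agent.Results.MP_fe3691_nt.AlmostAllForms

open scoped Classical in
theorem result (m N : ℕ) (hmN : m ∣ N) (hg : 2 ≤ SzBF.genus m N) (κ : ℝ)
    (hκ : 6 * ((N : ℝ) - 2) / (m * N) < κ) :
    ∃ A δ : ℝ, 0 < δ ∧ ∀ H : ℕ, 1 ≤ H →
      (((SzBF.box N H).filter (fun a => ¬ SzBF.SmallPoint m N (SzBF.form N a)
        (κ * Real.log (SzBF.oddPart m (SzBF.form N a)) + κ * Real.log (2 * m) +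
          25 * Real.log (m * N)))).card : ℝ) ≤ A * (H : ℝ) ^ (-δ) * (SzBF.box N H).card :=
  (SzBF.main m N hmN hg).2 κ hκ

end Pool.Agent.Results.MP_fe3691_nt.AlmostAllForms
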