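import Pool.Agent.SzU.Main

/-!
# The height of the point at infinity of y^m = f(x) is at most 1/m times the height of the branch
points plus a small constant

Let `K` be a number field and `f` in `K[x]` monic and separable of degree `n` prime to `m`, with
`g = (m-1)(n-1)/2 ≥ 2`. The stable Arakelov height of the point at infinity of the curve
`y^m = f(x)` of genus `g` is at most `(1/m) H + c(g)`, where `H` is the absolute logarithmic
projective height of the differences of the roots of `f` and
`c(g) = log(1+1/g)/2 + log(1+g)/g`, which is less than `0.76` and tends to `0`. There is no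
restriction on `m` beyond `gcd(m, n) = 1` and no hypothesis on the reduction.

The definitions (with the explanation why `height` is the stable Arakelov height of the point at
infinity) are in `Pool.Agent.SzNF.Defs`.
-/

open Polynomial

namespace Pool.Agent.Results.MP_fe3691_nt.BranchHeight

theorem result (K : Type*) [Field K] [NumberField K] (m : ℕ) (f : K[X]) (hf : f.Monic)
    (hs : f.Separable) (hmn : m.Coprime f.natDegree) (g : ℕ)
    (hgen : SzNF.genus m f.natDegree = g) (hg : 2 ≤ g) :
    (∀ σ : K →+* ℂ, ∃ e, SzNF.IsONB m f.natDegree (f.map σ) e) ∧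
    ∀ e : (K →+* ℂ) → (j : ℕ) → Fin (f.natDegree * j / m) → ℂ[X],
      (∀ σ, SzNF.IsONB m f.natDegree (f.map σ) (e σ)) →
      SzNF.height K m f e ≤ ((SzNF.branchHeight K f / m + (Real.log (1 + 1 / g) / 2 +
        Real.log (1 + g) / g) : ℝ) : EReal) :=
  SzU.main K m f hf hs hmn g hgen hg

end Pool.Agent.Results.MP_fe3691_nt.BranchHeight
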